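import Pool.Agent.Helper86.Poly.Goals

set_option autoImplicit false

namespace Pool.Agent.Helper65.Poly

open Pool.Agent.Helper86.Poly MeasureTheory Set

theorem PkUB.thm (hCAR : G_CAR) (hCB : G_CB) : G_UB := by
  intro d k P hd hk hP
  obtain ⟨⟨s, hs, hPs⟩, hint, hcard, hdiam⟩ := hP
  have hcomp : IsCompact P := by
    rw [hPs]; exact hs.isCompact_convexHull ℝ
  have hconv : Convex ℝ P := by
    rw [hPs]; exact convex_convexHull ℝ s
  have hfin : (P.extremePoints ℝ).Finite := by
    apply Set.finite_of_ncard_pos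
    rw [hcard]; omega
  have hPE : convexHull ℝ (P.extremePoints ℝ) = P := by
    have h1 := closure_convexHull_extremePoints hcomp hconv
    rwa [(hfin.isClosed_convexHull ℝ).closure_eq] at h1
  -- enumeration
  have hc2 : hfin.toFinset.card = d + k := by
    rw [← hcard, Set.ncard_eq_toFinset_card _ hfin]
  let e : hfin.toFinset ≃ Fin (d + k) := Finset.equivFinOfCardEq hc2
  let p : Fin (d + k) → E d := fun i => (e.symm i : E d)
  have hrange : range p = P.extremePoints ℝ := by
    ext x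
    constructor
    · rintro ⟨i, rfl⟩
      exact hfin.mem_toFinset.1 (e.symm i).2
    · intro hx
      exact ⟨e ⟨x, hfin.mem_toFinset.2 hx⟩, by simp [p]⟩
  have hhull : convexHull ℝ (range p) = P := by rw [hrange, hPE]
  have hmem : ∀ i, p i ∈ P := fun i => by
    have : p i ∈ P.extremePoints ℝ := by rw [← hrange]; exact ⟨i, rfl⟩
    exact extremePoints_subset this
  have hdist : ∀ i j, dist (p i) (p j) ≤ 1 := fun i j => by
    rw [← hdiam]
    exact Metric.dist_le_diam_of_mem hcomp.isBounded (hmem i) (hmem j)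
  have hcar := hCAR d k p hk
  have hcb := hCB d (d + k) p hd (by omega) hdist
  rw [hhull] at hcar
  set F := Finset.powersetCard (d + 1) (Finset.univ : Finset (Fin (d + k))) with hF
  have hFc : F.card = (d + k).choose (d + 1) := by
    rw [hF, Finset.card_powersetCard, Finset.card_univ, Fintype.card_fin]
  have hfinS : ∀ S : Finset (Fin (d + k)), volume (convexHull ℝ (p '' (S : Set (Fin (d + k))))) ≠ ⊤ := by
    intro S
    exact ((S.finite_toSet.image p).isCompact_convexHull ℝ).measure_lt_top.ne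
  have hcar' : (k : ℝ) * (volume P).toReal ≤
      ∑ S ∈ F, (volume (convexHull ℝ (p '' (S : Set (Fin (d + k)))))).toReal := by
    have h := ENNReal.toReal_mono (ENNReal.sum_ne_top.2 fun S _ => hfinS S) hcar
    rw [ENNReal.toReal_mul, ENNReal.toReal_natCast, ENNReal.toReal_sum (fun S _ => hfinS S)] at h
    exact h
  have hcs := sq_sum_le_card_mul_sum_sq (s := F)
    (f := fun S => ((d.factorial : ℝ) * (volume (convexHull ℝ (p '' (S : Set (Fin (d + k)))))).toReal))
  rw [← Finset.mul_sum, hFc] at hcs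
  have h0 : 0 ≤ (volume P).toReal := ENNReal.toReal_nonneg
  have hdf : (0 : ℝ) ≤ d.factorial := by positivity
  have hk0 : (0 : ℝ) ≤ k := by positivity
  have h1 : ((d.factorial : ℝ) * ((k : ℝ) * (volume P).toReal)) ^ 2 ≤
      ((d.factorial : ℝ) * ∑ S ∈ F, (volume (convexHull ℝ (p '' (S : Set (Fin (d + k)))))).toReal) ^ 2 := by
    apply pow_le_pow_left₀ (by positivity)
    exact mul_le_mul_of_nonneg_left hcar' hdf
  have h2 := h1.trans hcs
  have h3 : ((d.factorial : ℝ) * ((k : ℝ) * (volume P).toReal)) ^ 2 ≤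
      ((d + k).choose (d + 1) : ℝ) * (((d + k : ℕ) : ℝ) * ((((d + k : ℕ) : ℝ) - 1) / (2 * d)) ^ d) :=
    h2.trans (mul_le_mul_of_nonneg_left hcb (by positivity))
  have h4 := mul_le_mul_of_nonneg_right h3 (show (0 : ℝ) ≤ 2 ^ d by positivity)
  have hd0 : (d : ℝ) ≠ 0 := by
    have : 0 < d := hd
    positivity
  have h5 : ((((d + k : ℕ) : ℝ) - 1) / (2 * d)) ^ d * 2 ^ d = (((d : ℝ) + k - 1) / d) ^ d := by
    rw [← mul_pow]
    congr 1
    push_cast
    field_simp
  calc ((d.factorial : ℝ) * (volume P).toReal) ^ 2 * 2 ^ d * (k : ℝ) ^ 2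
      = ((d.factorial : ℝ) * ((k : ℝ) * (volume P).toReal)) ^ 2 * 2 ^ d := by ring
    _ ≤ ((d + k).choose (d + 1) : ℝ) * (((d + k : ℕ) : ℝ) * ((((d + k : ℕ) : ℝ) - 1) / (2 * d)) ^ d) * 2 ^ d := h4
    _ = ((d + k).choose (d + 1) : ℝ) * ((d + k : ℕ) : ℝ) * (((((d + k : ℕ) : ℝ) - 1) / (2 * d)) ^ d * 2 ^ d) := by ring
    _ = ((d : ℝ) + k) * ((d + k).choose (d + 1)) * (((d : ℝ) + k - 1) / d) ^ d := by
        rw [h5]; push_cast; ring

end Pool.Agent.Helper65.Poly
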